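import Pool.Agent.Q33.BinSum

set_option autoImplicit false

namespace Pool.Agent.Results.MP_cbe697_nt.MultinomialSums

open Finset

/-- The sum `M_{m,n}^{(r)}` of the `r`-th powers of the multinomial coefficients
`n! / (k₁! ⋯ kₘ!)` over all ordered `m`-tuples of nonnegative integers with sum `n`. -/
def M (m n r : ℕ) : ℕ :=
  ∑ f ∈ Finset.Nat.antidiagonalTuple m n, (Nat.multinomial Finset.univ f) ^ r

/-- For all `m, n ≥ 1` and `r ≥ 0`, the integer
`∑_{k<n} (-1)^{rk} ((m+1)k+m) M_{m,k}^{(r)}` is divisible by `mn`. -/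
theorem result : ∀ m n r : ℕ, 1 ≤ m → 1 ≤ n →
    ((m * n : ℕ) : ℤ) ∣
      ∑ k ∈ range n, (-1 : ℤ) ^ (r * k) * ((((m : ℤ) + 1) * k + m) * (M m k r : ℤ)) := by
  intro m n r hm hn
  exact Pool.Agent.Q33.BinSum.main m n r hm hn

end Pool.Agent.Results.MP_cbe697_nt.MultinomialSums
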